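import Pool.Agent.Lib_helper58.MBS.Notions

/-! # Holomorphic maps from the punctured disc to surfaces (MP_45e720_ag): definitions for the
statement

The complex manifolds are as in `Pool.Agent.Lib_helper82.BR.Statement`: charted spaces over a
finite-dimensional complex normed space `E` with analytic transition maps. A map from the punctured
unit disc to `X` is represented by a function on `ℂ`, whose values outside of the punctured disc do
not matter. -/

set_option autoImplicit false

open Filter Topology Metric Set
open scoped Manifold ContDiff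

namespace Pool.Agent.Cylinder

section

variable (E : Type) {X : Type} [NormedAddCommGroup E] [NormedSpace ℂ E] [TopologicalSpace X]
  [ChartedSpace E X] [IsManifold 𝓘(ℂ, E) ω X]

/-- `F` is a holomorphic map from the punctured unit disc to `X` with `|w F'(w)|` bounded: the
tangent vectors `w F'(w)` stay in a compact set (this is the analogue of a Brody curve: the
entire curve or the curve on a half-plane `z ↦ F (exp z)` has bounded derivative) -/
def IsPuncturedBrody (F : ℂ → X) : Prop :=
  (∀ w : ℂ, w ≠ 0 → ‖w‖ < 1 → MDifferentiableAt 𝓘(ℂ, ℂ) 𝓘(ℂ, E) F w) ∧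
    ∃ K : Set (TangentBundle 𝓘(ℂ, E) X), IsCompact K ∧
      ∀ w : ℂ, w ≠ 0 → ‖w‖ < 1 → tangentMap 𝓘(ℂ, ℂ) 𝓘(ℂ, E) F ⟨w, w⟩ ∈ K

omit [IsManifold 𝓘(ℂ, E) ω X] in
/-- `F` extends to a holomorphic map from the unit disc to `X` -/
def ExtendsOverZero (F : ℂ → X) : Prop :=
  ∃ F' : ℂ → X, (∀ w : ℂ, ‖w‖ < 1 → MDifferentiableAt 𝓘(ℂ, ℂ) 𝓘(ℂ, E) F' w) ∧
    ∀ w : ℂ, w ≠ 0 → ‖w‖ < 1 → F' w = F w

end

section

variable {X : Type} [TopologicalSpace X]

/-- the entire curve `g` is a limit of the rescaled maps `z ↦ F (w_n exp z)`, `w_n → 0` -/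
def IsEndLimit (F g : ℂ → X) : Prop :=
  ∃ w : ℕ → ℂ, (∀ n, w n ≠ 0) ∧ Tendsto w atTop (𝓝 0) ∧
    ∀ z, Tendsto (fun n => F (w n * Complex.exp z)) atTop (𝓝 (g z))

/-- the image of the entire curve `g` is, up to arbitrarily small neighbourhoods of finitely many
points, the image of a closed disc. For a nonconstant entire curve in a compact manifold this
means that the closure of the image is a compact analytic curve (by the theorem of Remmert and
Stein), which is then a rational or an elliptic curve. -/
def HasAlgebraicImage (g : ℂ → X) : Prop :=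
  ∃ Z : Set X, Z.Finite ∧ ∀ W : Set X, IsOpen W → Z ⊆ W →
    ∃ R : ℝ, range g ⊆ W ∪ g '' closedBall 0 R

end

end Pool.Agent.Cylinder
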