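import Pool.Agent.Lib_helper66.CYL.Base

/-! # The cylinder theorem (MP_45e720_ag): curves on a half-plane, definitions -/

set_option autoImplicit false
set_option linter.unusedSectionVars false
set_option linter.unusedVariables false

open Filter Topology Metric Set

namespace Pool.Agent.CYL

open Pool.Agent.BR Pool.Agent.MBS

section fam

variable {E X : Type} [NormedAddCommGroup E] [NormedSpace ℂ E] [MetricSpace X]

/-- `f` is holomorphic with derivative bounded by `C` and has the period `2 π i` on the left
half-plane -/
structure HB (A : Cha E X) (C : ℝ) (f : ℂ → X) : Prop where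
  hol : ∀ z : ℂ, z.re < 0 → A.HolAt f z
  bd : ∀ z : ℂ, z.re < 0 → ∀ i, f z ∈ A.W i → ‖deriv (A.loc i f) z‖ ≤ C
  per : ∀ z : ℂ, z.re < 0 → f (z + tpi) = f z

/-- the limits of the translates of `f` to the left -/
def Lam (f : ℂ → X) : Set (ℂ → X) :=
  {g | ∀ n : ℕ, g ∈ closure ((fun w => tr w f) '' {w : ℂ | w.re < -n})}

end fam

end Pool.Agent.CYL
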