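import Pool.Agent.Lib_helper66.CYL.Defs

/-! # The cylinder theorem (MP_45e720_ag): further definitions used in the proof -/

set_option autoImplicit false
set_option linter.unusedSectionVars false
set_option linter.unusedVariables false

open Filter Topology Metric Set

namespace Pool.Agent.CYL

open Pool.Agent.BR Pool.Agent.MBS

section fam

variable {E X : Type} [NormedAddCommGroup E] [NormedSpace ℂ E] [MetricSpace X]

/-- a calm curve becomes calmer: if the periodic Brody curve `g` moves by at most `δ ≤ η₀` near all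
points at distance `≤ ℓ` of `z` then it moves by at most `δ / 2` near `z` -/
def Dec (A : Cha E X) (C η₀ : ℝ) (ℓ : ℕ) : Prop :=
  ∀ g ∈ BF A C, Per g → ∀ δ, 0 < δ → δ ≤ η₀ → ∀ z,
    (∀ z', ‖z' - z‖ ≤ ℓ → Calm δ g z') → Calm (δ / 2) g z

/-- in a calm vertical strip the curve is exponentially near to a constant -/
def Str (A : Cha E X) (C η₀ : ℝ) (ℓ : ℕ) (C₀ : ℝ) : Prop :=
  ∀ g ∈ BF A C, Per g → ∀ (a b : ℝ) (k : ℕ), (∀ z : ℂ, a < z.re → z.re < b → Calm η₀ g z) →
    ∀ z z' : ℂ, a + k * ℓ < z.re → z.re < b - k * ℓ → a + k * ℓ < z'.re → z'.re < b - k * ℓ →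
      dist (g z) (g z') ≤ C₀ / 2 ^ k

/-- the curve `g` in the coordinate `ξ = exp z`, extended by the value `c` to `ξ = 0` -/
noncomputable def ext (g : ℂ → X) (c : X) : ℂ → X :=
  fun ξ => if ξ = 0 then c else g (Complex.log ξ)

/-- the reversed curve -/
def ng (g : ℂ → X) : ℂ → X := fun z => g (-z)

/-- the family of the reversed curves -/
def NgS (M : Set (ℂ → X)) : Set (ℂ → X) := {g | ng g ∈ M}

/-- a closed invariant family of periodic Brody curves in which nearby nonconstant curves have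
displacement zero, and all compact sets of nonconstant curves are covered by discs of `g` -/
structure Fam (A : Cha E X) (C : ℝ) (M : Set (ℂ → X)) (g : ℂ → X) : Prop where
  sub : M ⊆ BF A C
  closed : IsClosed M
  inv : ∀ g ∈ M, ∀ w, tr w g ∈ M
  per : ∀ g ∈ M, Per g
  cov : ∀ K ⊆ M, IsCompact K → (∀ h ∈ K, NCst h) → ∃ R : ℝ, ∀ h ∈ K, ∃ u : ℂ, ‖u‖ ≤ R ∧ h 0 = g u
  zz : ∀ f ∈ M, NCst f → ∀ z, NC A f z → NN (𝓝[M] f) (fun h => h) (fun _ => f) (fun _ => 0) z

/-- the sets `S` of points which are near to a finite set or on a disc of `g` -/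
def Small (g : ℂ → X) (S : Set X) : Prop :=
  ∃ Z : Set X, Z.Finite ∧ ∀ W : Set X, IsOpen W → Z ⊆ W → ∃ R : ℝ, S ⊆ W ∪ g '' closedBall 0 R

end fam

end Pool.Agent.CYL
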