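import Pool.Agent.Lib_helper58.MBS.Base

/-! # The cylinder theorem (MP_45e720_ag): definitions used in the proof -/

set_option autoImplicit false
set_option linter.unusedSectionVars false
set_option linter.unusedVariables false

open Filter Topology Metric Set

namespace Pool.Agent.CYL

open Pool.Agent.BR Pool.Agent.MBS

section fam

variable {E X : Type} [NormedAddCommGroup E] [NormedSpace ℂ E] [MetricSpace X]

/-- the curve `g` is not constant -/
def NCst (g : ℂ → X) : Prop := ∃ z z', g z ≠ g z'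

/-- the period `2 π i` -/
noncomputable def tpi : ℂ := 2 * Real.pi * Complex.I

/-- `g` has the period `2 π i` -/
def Per (g : ℂ → X) : Prop := ∀ z, g (z + tpi) = g z

/-- `g` moves by at most `η` on the disc of radius `1` around `z` -/
def Calm (η : ℝ) (g : ℂ → X) (z : ℂ) : Prop := ∀ w, ‖w - z‖ ≤ 1 → dist (g w) (g z) ≤ η

/-- `g` moves by at least `η` on the disc of radius `1` around `z` -/
def Act (η : ℝ) (g : ℂ → X) (z : ℂ) : Prop := ∃ w, ‖w - z‖ ≤ 1 ∧ η ≤ dist (g w) (g z)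

/-- a closed translation invariant set of periodic Brody curves which is minimal among those that
contain a nonconstant curve; constants are allowed in `M` -/
structure QM (A : Cha E X) (C : ℝ) (M : Set (ℂ → X)) : Prop where
  sub : M ⊆ BF A C
  closed : IsClosed M
  inv : ∀ g ∈ M, ∀ w, tr w g ∈ M
  per : ∀ g ∈ M, Per g
  ex : ∃ g ∈ M, NCst g
  min : ∀ N ⊆ M, IsClosed N → (∃ g ∈ N, NCst g) → (∀ g ∈ N, ∀ w, tr w g ∈ N) → N = M

/-- uniform sample circles for the members of `K` (the curves of `M` near them) -/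
structure SmpK (M K : Set (ℂ → X)) (θ ε : ℝ) : Prop where
  θ_pos : 0 < θ
  ε_pos : 0 < ε
  ε_le : ε ≤ 1
  circ : ∀ f ∈ K, ∃ s, 1 < s ∧ s < 2 ∧ ∃ η > 0, ∀ᶠ g in 𝓝[M] f, ∀ ζ : ℂ,
    s - η < ‖ζ‖ → ‖ζ‖ < s + η → Smp θ ε g ζ

/-- uniform propagation for the members of `K` -/
def HHK (M K : Set (ℂ → X)) (θ ε R₁ C₀ R δ : ℝ) : Prop :=
  ∀ g ∈ M, ∀ h ∈ M, ∀ (z : ℂ) (B : ℝ), tr z g ∈ K → 0 ≤ B →
    (∀ w, ‖w - z‖ ≤ R → dist (g w) (h w) ≤ δ) →
      Mle θ ε g h z B → ∀ z', ‖z' - z‖ ≤ R₁ → Mle θ ε g h z' (C₀ * B)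

/-- the regularity of `M`: every nonconstant member satisfies a regular equation off a countable
closed set -/
def RegN (A : Cha E X) (k : ℕ) (M : Set (ℂ → X)) : Prop :=
  ∃ p : Fin (k + 1), ∀ f ∈ M, NCst f → ∃ B : Set ℂ, IsClosed B ∧ B.Countable ∧ ∀ z ∉ B, ∀ i,
    f z ∈ (A.ch i).source → ∀ χ : ℂ → ℂ, AnalyticAt ℂ χ 0 → χ 0 = z → deriv χ 0 ≠ 0 →
      Reg A k M p i (fun ζ => f (χ ζ))

/-- the members of `M` which move by at least `η` near a point of `closedBall 0 ρ` -/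
def KA (M : Set (ℂ → X)) (η ρ : ℝ) : Set (ℂ → X) := {g | g ∈ M ∧ ∃ z, ‖z‖ ≤ ρ ∧ Act η g z}

end fam

section fam2

variable {E X : Type} [NormedAddCommGroup E] [NormedSpace ℂ E] [FiniteDimensional ℂ E]
  [MetricSpace X] [CompactSpace X] {A : Cha E X} {C : ℝ} {M : Set (ℂ → X)}

theorem min_compact (hM : QM A C M) : IsCompact M := hM.closed.isCompact

end fam2

end Pool.Agent.CYL
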